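/-!
A program on large natural numbers, viewed as vectors of fields of 40 bits.
-/

set_option autoImplicit false

namespace Pool.Agent.MP_5d10af_nt.Num

/-- The largest value of a field. -/
def MM : Nat := 1099511627775

def HALF : Nat := 549755813888

def full (n : Nat) : Nat := Nat.sub (Nat.pow 2 n) 1

def ones (w n : Nat) : Nat := Nat.div (full (Nat.mul w n)) (full w)

/-- Periodic extension by doubling. -/
noncomputable def ext (x L k : Nat) : Nat :=
  Nat.rec x (fun i acc => Nat.add acc (Nat.shiftLeft acc (Nat.mul L (Nat.pow 2 i)))) k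

/-- `n` fields of width `w` of the periodic extension of `p` fields. -/
noncomputable def per (w p n x : Nat) : Nat :=
  Nat.land (ext x (Nat.mul w p) (Nat.succ (Nat.log2 (Nat.div n p)))) (full (Nat.mul w n))

def C0 : Nat := ones 9984 32
def M0 : Nat := Nat.mul (ones 10240 32) (full 256)
def C1 : Nat := ones 624 16
def M1 : Nat := Nat.mul (ones 640 512) (full 16)
def C2 : Nat := ones 39 16
def M2 : Nat := ones 40 8192

/-- Spread bits to full fields. -/
def spread (x : Nat) : Nat :=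
  Nat.mul (Nat.land (Nat.mul (Nat.land (Nat.mul (Nat.land (Nat.mul x C0) M0) C1) M1) C2) M2) MM

/-- Pattern of the indices `j` with `(h + j) % q = r`, width `w`, value `v`. -/
noncomputable def cls (w v q r h n : Nat) : Nat :=
  per w q n (Nat.shiftLeft v (Nat.mul w (Nat.mod (Nat.sub (Nat.add r q) (Nat.mod h q)) q)))

/-- Sign mask. -/
noncomputable def mkS (h n p B : Nat) : Nat :=
  spread (Nat.xor
    (per 1 p n (Nat.land (Nat.shiftRight (Nat.add B (Nat.shiftLeft B p)) (Nat.mod h p)) (full p)))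
    (cond (Nat.beq (Nat.mod p 4) 3) (cls 1 1 2 1 h n) 0))

noncomputable def mkZ (h n p : Nat) : Nat := cls 40 MM p (Nat.div p 2) h n

noncomputable def mkN (h n p : Nat) : Nat := Nat.xor (mkZ h n p) (full (Nat.mul 40 n))

/-- Marks of the squares. -/
noncomputable def qr (p : Nat) : Nat :=
  Nat.xor (full p) (Nat.rec 0 (fun i acc =>
    Nat.lor acc (Nat.shiftLeft 1 (Nat.mod (Nat.mul 2 (Nat.mul i (Nat.succ i))) p))) (Nat.div p 2))

def val (Q SC e : Nat) : Nat :=
  cond (Nat.beq (Nat.gcd (Nat.div e (Nat.gcd e Q)) (Nat.gcd e Q)) 1)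
    (cond (Nat.beq (Nat.div e (Nat.gcd e Q)) 1) (Nat.div SC e)
      (Nat.div SC (Nat.mul (Nat.gcd e Q) (Nat.succ (Nat.mul 2 (Nat.div e (Nat.gcd e Q)))))))
    0

noncomputable def bld (Q SC d : Nat) : Nat → Nat :=
  Nat.rec (fun e => val Q SC e) (fun i ih e =>
    Nat.add (ih e) (Nat.shiftLeft (ih (Nat.add e (Nat.pow 2 (Nat.succ i)))) (Nat.mul 40 (Nat.pow 2 i)))) d

def low (n : Nat) : Nat := Nat.mul (ones 40 n) (full 24)

def shr (n x : Nat) : Nat := Nat.land (Nat.shiftRight x 16) (low n)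

noncomputable def stepLo (h n p W : Nat) : Nat :=
  Nat.add (Nat.land W (mkN h n p))
    (shr n (Nat.mul (Nat.land W (mkZ h n p))
      (Nat.div (Nat.mul 65536 p) (Nat.succ (Nat.mul 2 p)))))

noncomputable def stepHi (h n p W : Nat) : Nat :=
  Nat.add (Nat.add (Nat.land W (mkN h n p))
    (shr n (Nat.mul (Nat.land W (mkZ h n p))
      (Nat.succ (Nat.div (Nat.mul 65536 p) (Nat.succ (Nat.mul 2 p)))))))
    (Nat.land (ones 40 n) (mkZ h n p))

noncomputable def foldP (f : Nat → Nat → Nat → Nat) (W : Nat) (L : List (Nat × Nat)) : Nat :=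
  List.rec W (fun x _ ih => f x.1 x.2 ih) L

/-- True if the character `i` is negative at `p`. -/
def psiNeg (i p : Nat) : Bool :=
  cond (Nat.beq i 0) false
    (cond (Nat.beq i 1) (Nat.beq (Nat.mod p 4) 3)
      (cond (Nat.beq i 2) (or (Nat.beq (Nat.mod p 8) 3) (Nat.beq (Nat.mod p 8) 5))
        (or (Nat.beq (Nat.mod p 8) 5) (Nat.beq (Nat.mod p 8) 7))))

noncomputable def mA (h n p B : Nat) : Nat := Nat.land (mkN h n p) (mkS h n p B)

noncomputable def mB (h n p B : Nat) : Nat := Nat.xor (mkN h n p) (mA h n p B)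

/-- Multiply by `ca` where the symbol is `-1` and by `cb` where it is `1`. -/
noncomputable def step3 (h n p B ca cb W : Nat) : Nat :=
  Nat.add (Nat.add (Nat.land W (mkZ h n p))
    (shr n (Nat.add (Nat.mul (Nat.land W (mA h n p B)) ca) (Nat.mul (Nat.land W (mB h n p B)) cb))))
    (ones 40 n)

def cPp (p : Nat) : Nat :=
  Nat.succ (Nat.div (Nat.mul 65536 (Nat.add (Nat.mul 2 p) 2)) (Nat.succ (Nat.mul 2 p)))
def cPm (p : Nat) : Nat :=
  Nat.succ (Nat.div (Nat.mul 65536 (Nat.mul 2 p)) (Nat.succ (Nat.mul 2 p)))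
def cHp (p : Nat) : Nat :=
  Nat.succ (Nat.div (Nat.mul 65536 (Nat.mul (Nat.add (Nat.mul 2 p) 2) (Nat.sub p 1)))
    (Nat.mul (Nat.succ (Nat.mul 2 p)) p))

noncomputable def stepP (h n i p B W : Nat) : Nat :=
  cond (psiNeg i p) (step3 h n p B (cPp p) (cPm p) W) (step3 h n p B (cPm p) (cPp p) W)

noncomputable def stepH (h n i p B W : Nat) : Nat :=
  cond (psiNeg i p) (step3 h n p B (cHp p) (cPp p) W) (step3 h n p B (cPp p) (cHp p) W)

/-- Multiply by the coefficient that depends on the class modulo 8. -/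
noncomputable def mulK (h n k1 k3 k5 k7 W : Nat) : Nat :=
  Nat.add (Nat.add (Nat.mul (Nat.land W (cls 40 MM 4 0 h n)) k1)
      (Nat.mul (Nat.land W (cls 40 MM 4 1 h n)) k3))
    (Nat.add (Nat.mul (Nat.land W (cls 40 MM 4 2 h n)) k5)
      (Nat.mul (Nat.land W (cls 40 MM 4 3 h n)) k7))

noncomputable def mK0 (h n W : Nat) : Nat := mulK h n 48 16 36 24 W
noncomputable def mK1 (h n W : Nat) : Nat := mulK h n 2 20 2 20 W
noncomputable def mK2 (h n W : Nat) : Nat := mulK h n 5 1 5 1 W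
noncomputable def mK3 (h n W : Nat) : Nat := mulK h n 1 5 1 5 W

def halfv (n : Nat) : Nat := Nat.mul (ones 40 n) HALF

/-- The signed combination for the class of `m`. -/
def comb (n A0 A1 A2 A3 r : Nat) : Nat :=
  cond (Nat.beq r 1) (Nat.add (Nat.add (Nat.add A0 A1) (Nat.add A2 A3)) (halfv n))
    (cond (Nat.beq r 3) (Nat.sub (Nat.add (Nat.add A0 A3) (halfv n)) (Nat.add A1 A2))
      (cond (Nat.beq r 5) (Nat.sub (Nat.add (Nat.add A0 A1) (halfv n)) (Nat.add A2 A3))
        (Nat.sub (Nat.add (Nat.add A0 A2) (halfv n)) (Nat.add A1 A3))))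

def evenM : Nat := Nat.mul (ones 80 4096) MM

/-- The sum of the fields. -/
def sumF (x : Nat) : Nat :=
  Nat.add (Nat.mod (Nat.land x evenM) (full 80))
    (Nat.mod (Nat.land (Nat.shiftRight x 40) evenM) (full 80))

def dot (T S N : Nat) : Nat :=
  Nat.mod (Nat.mul 2 (Nat.mod (Nat.land (Nat.xor T S) N) MM)) MM

/-- Lower approximation of the coefficient, for `X = 2048`, times `2 ^ 40`. -/
def phiLo (m : Nat) : Nat :=
  cond (Nat.ble m 4095)
    (Nat.div (Nat.mul 1099511627776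
        (Nat.sub 16769024 (Nat.mul (Nat.div (Nat.succ m) 2) m))) (Nat.mul 16769024 m))
    (cond (Nat.ble m 8190)
      (Nat.div (Nat.mul 1099511627776
        (Nat.sub (Nat.add (Nat.add (Nat.mul 16769024 (Nat.div (Nat.succ m) 2)) (Nat.mul 8384512 m))
          (Nat.mul (Nat.mul (Nat.div (Nat.succ m) 2) (Nat.div (Nat.succ m) 2)) m))
          (Nat.mul 8190 (Nat.mul m (Nat.div (Nat.succ m) 2)))))
        (Nat.mul (Nat.mul 16769024 m) (Nat.div (Nat.succ m) 2)))
      0)

def BIG : Nat := Nat.pow 2 90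

def termU (n c v : Nat) : Nat :=
  cond (Nat.blt v HALF) (Nat.add BIG (Nat.mul (Nat.succ c) (Nat.add v n)))
    (Nat.sub (Nat.add BIG (Nat.mul (Nat.succ c) n)) (Nat.mul c (Nat.sub MM v)))

def termG (n c v : Nat) : Nat :=
  cond (Nat.blt v HALF) (Nat.sub (Nat.add BIG (Nat.mul (Nat.succ c) n)) (Nat.mul c v))
    (Nat.add BIG (Nat.mul (Nat.succ c) (Nat.add (Nat.sub MM v) n)))

def node (n : Nat) (U G : Nat → Nat) (m S N den : Nat) : Nat :=
  Nat.add (termU n (phiLo m) (dot (U (Nat.mod m 8)) S N))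
    (cond (Nat.beq den 0) BIG
      (termG n (Nat.div 2199023255552 den) (dot (G (Nat.mod m 8)) S N)))

noncomputable def dfs (h n : Nat) (nd : Nat → Nat → Nat → Nat → Nat) (fuel : Nat) :
    Nat → Nat → Nat → Nat → List (Nat × Nat) → Nat :=
  Nat.rec (fun _ _ _ _ _ => 0) (fun _ ihf m S N den L =>
    List.rec 0 (fun x t ih =>
      cond (Nat.blt (Nat.mul m x.1) 8192)
        (Nat.add (Nat.add
          (nd (Nat.mul m x.1) (Nat.xor S (mkS h n x.1 x.2)) (Nat.land N (mkN h n x.1))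
            (cond (Nat.beq (Nat.mod m x.1) 0) 0 (Nat.mul den (Nat.succ (Nat.mul 2 x.1)))))
          (ihf (Nat.mul m x.1) (Nat.xor S (mkS h n x.1 x.2)) (Nat.land N (mkN h n x.1))
            (cond (Nat.beq (Nat.mod m x.1) 0) 0 (Nat.mul den (Nat.succ (Nat.mul 2 x.1)))) (x :: t)))
          ih)
        0) L) fuel

noncomputable def prodP (L : List (Nat × Nat)) : Nat := List.rec 1 (fun x _ ih => Nat.mul x.1 ih) L

noncomputable def ini (Lg : List (Nat × Nat)) (h n SC d : Nat) : Nat :=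
  Nat.land (bld (prodP Lg) SC d (Nat.succ (Nat.mul 2 h))) (full (Nat.mul 40 n))

noncomputable def gLo (Lg : List (Nat × Nat)) (h n SC d : Nat) : Nat :=
  foldP (fun p _ W => stepLo h n p W) (ini Lg h n SC d) Lg

noncomputable def gHi (Lg : List (Nat × Nat)) (h n SC d : Nat) : Nat :=
  foldP (fun p _ W => stepHi h n p W) (Nat.add (ini Lg h n SC d) (ones 40 n)) Lg

/-- Remove the first field if `h = 0`. -/
def kill (h W : Nat) : Nat :=
  cond (Nat.beq h 0) (Nat.shiftLeft (Nat.shiftRight W 40) 40) W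

noncomputable def fin (L : List (Nat × Nat)) (h n sq : Nat)
    (g0 g1 P0 P1 P2 P3 H0 H1 H2 H3 : Nat) : Nat :=
  Nat.add (Nat.add
    (Nat.add (node n (comb n H0 H1 H2 H3) (comb n (mK0 h n g1) (mK1 h n g1) (mK2 h n g1) (mK3 h n g1))
      1 0 (full (Nat.mul 40 n)) 1)
    (dfs h n (node n (comb n H0 H1 H2 H3)
      (comb n (mK0 h n g1) (mK1 h n g1) (mK2 h n g1) (mK3 h n g1))) 9 1 0 (full (Nat.mul 40 n)) 1 L))
    (Nat.mul 2199023255552 (sumF (Nat.add (Nat.add P0 P1) (Nat.add P2 P3)))))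
    (Nat.add (Nat.add
      (Nat.mul (Nat.add (Nat.mul 537002049 sq) 488300000) (sumF (Nat.add H0 H1)))
      (Nat.mul (Nat.add (Nat.mul 759439038 sq) 488300000) (sumF (Nat.add H2 H3))))
      (Nat.mul 803000000000000 (Nat.sub (sumF g1) (sumF g0))))

/-- The size condition for decoding. -/
noncomputable def fits (h n g1 H0 H1 H2 H3 : Nat) : Bool :=
  and (Nat.blt (Nat.add (Nat.mul 2 (sumF (Nat.add (Nat.add H0 H1) (Nat.add H2 H3)))) n) HALF)
    (Nat.blt (Nat.add (Nat.mul 112 (sumF g1)) n) HALF)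

noncomputable def chk2 (L Lz : List (Nat × Nat)) (h n SC sq a b g0 g1 gc : Nat) : Bool :=
  and (fits h n g1
      (mK0 h n (foldP (stepH h n 0) (kill h gc) Lz)) (mK1 h n (foldP (stepH h n 1) gc Lz))
      (mK2 h n (foldP (stepH h n 2) gc Lz)) (mK3 h n (foldP (stepH h n 3) gc Lz)))
    (Nat.ble
      (Nat.add (Nat.mul 1000000 (fin L h n sq g0 g1
        (mK0 h n (foldP (stepP h n 0) (kill h gc) Lz)) (mK1 h n (foldP (stepP h n 1) gc Lz))
        (mK2 h n (foldP (stepP h n 2) gc Lz)) (mK3 h n (foldP (stepP h n 3) gc Lz))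
        (mK0 h n (foldP (stepH h n 0) (kill h gc) Lz)) (mK1 h n (foldP (stepH h n 1) gc Lz))
        (mK2 h n (foldP (stepH h n 2) gc Lz)) (mK3 h n (foldP (stepH h n 3) gc Lz))))
        (Nat.mul b (Nat.mul 140737488355328 SC)))
      (Nat.add (Nat.mul 1000000 (Nat.mul 8192 BIG)) (Nat.mul a (Nat.mul 140737488355328 SC))))

/-- The check for the odd numbers `2 (h + j) + 1`, `j < n`. -/
noncomputable def chk (L : List (Nat × Nat)) (h n d c SC sq a b : Nat) : Bool :=
  chk2 L (List.take 24 L) h n SC sq a b (gLo (List.take 171 L) h n SC d)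
    (gHi (List.take 171 L) h n SC d) (Nat.mul c (gHi (List.take 171 L) h n SC d))

end Pool.Agent.MP_5d10af_nt.Num
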