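import Pool.Agent.MP_5d10af_nt.Num.Run4

/-!
Runs of the check.
-/

set_option autoImplicit false

namespace Pool.Agent.MP_5d10af_nt.Num

theorem runs7 :
    chk tab0 352256 8192 13 1 1477470846976 850 316 0 = true ∧
    chk tab0 360448 8192 13 1 1511830585344 859 313 0 = true ∧
    chk tab0 368640 8192 13 1 1546190323712 869 308 0 = true ∧
    chk tab0 376832 8192 13 1 1580550062080 878 306 0 = true ∧
    chk tab0 385024 8192 13 1 1614909800448 887 302 0 = true ∧
    chk tab0 393216 8192 13 1 1649269538816 896 298 0 = true ∧
    chk tab0 401408 8192 13 1 1683629277184 906 294 0 = true :=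
  ⟨by decide +kernel, by decide +kernel, by decide +kernel, by decide +kernel, by decide +kernel, by decide +kernel, by decide +kernel⟩

end Pool.Agent.MP_5d10af_nt.Num
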