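import Pool.Agent.MP_5d10af_nt.Num.Run5

/-!
Runs of the check.
-/

set_option autoImplicit false

namespace Pool.Agent.MP_5d10af_nt.Num

theorem runs8 :
    chk tab0 409600 8192 13 1 1717989015552 915 292 0 = true ∧
    chk tab0 417792 8192 13 1 1752348753920 924 289 0 = true ∧
    chk tab0 425984 8192 13 1 1786708492288 932 286 0 = true ∧
    chk tab0 434176 8192 13 1 1821068230656 941 283 0 = true ∧
    chk tab0 442368 8192 13 1 1855427969024 950 280 0 = true ∧
    chk tab0 450560 8192 13 1 1889787707392 958 277 0 = true ∧
    chk tab0 458752 8192 13 1 1924147445760 967 275 0 = true :=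
  ⟨by decide +kernel, by decide +kernel, by decide +kernel, by decide +kernel, by decide +kernel, by decide +kernel, by decide +kernel⟩

end Pool.Agent.MP_5d10af_nt.Num
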