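import Pool.Agent.MP_5d10af_nt.Num.Run6

/-!
Runs of the check.
-/

set_option autoImplicit false

namespace Pool.Agent.MP_5d10af_nt.Num

theorem runs9 :
    chk tab0 466944 8192 13 1 1958507184128 975 272 0 = true ∧
    chk tab0 475136 8192 13 1 1992866922496 984 270 0 = true ∧
    chk tab0 483328 8192 13 1 2027226660864 992 266 0 = true ∧
    chk tab0 491520 8192 13 1 2061586399232 1000 265 0 = true ∧
    chk tab0 499712 8192 13 1 2095946137600 1008 263 0 = true ∧
    chk tab0 507904 8192 13 1 2130305875968 1016 260 0 = true ∧
    chk tab0 516096 8192 13 1 2164665614336 1024 258 0 = true :=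
  ⟨by decide +kernel, by decide +kernel, by decide +kernel, by decide +kernel, by decide +kernel, by decide +kernel, by decide +kernel⟩

end Pool.Agent.MP_5d10af_nt.Num
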