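import Pool.Agent.MP_5d10af_nt.Num.Prog
import Pool.Agent.MP_5d10af_nt.Num.Tab

/-!
The patterns of the table are the computed ones.
-/

set_option autoImplicit false

namespace Pool.Agent.MP_5d10af_nt.Num

noncomputable def okQ (lo hi : Nat) (L : List (Nat × Nat)) : Bool :=
  List.rec true (fun x _ ih =>
    and (cond (and (Nat.ble lo x.1) (Nat.blt x.1 hi)) (Nat.beq x.2 (qr x.1)) true) ih) L

theorem okQs : okQ 0 3600 tab0 = true ∧ okQ 3600 5100 tab0 = true ∧ okQ 5100 6300 tab0 = true ∧
    okQ 6300 7300 tab0 = true ∧ okQ 7300 8192 tab0 = true :=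
  ⟨by decide +kernel, by decide +kernel, by decide +kernel, by decide +kernel, by decide +kernel⟩

end Pool.Agent.MP_5d10af_nt.Num
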