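import Pool.Agent.MP_5d10af_nt.Num.Prog
import Pool.Agent.MP_5d10af_nt.Num.Tab

/-!
Runs of the check.
-/

set_option autoImplicit false

namespace Pool.Agent.MP_5d10af_nt.Num

theorem runs0 :
    chk tab0 0 256 8 2 4194304 23 0 1927766 = true ∧
    chk tab0 256 768 10 2 1075838976 46 253560 0 = true ∧
    chk tab0 1024 3072 12 2 4297064448 91 241043 0 = true ∧
    chk tab0 4096 4096 12 1 17181966336 128 1731 0 = true :=
  ⟨by decide +kernel, by decide +kernel, by decide +kernel, by decide +kernel⟩

end Pool.Agent.MP_5d10af_nt.Num
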