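import Pool.Agent.MP_5d10af_nt.Num.Prog
import Pool.Agent.MP_5d10af_nt.Num.Tab

/-!
Runs of the check.
-/

set_option autoImplicit false

namespace Pool.Agent.MP_5d10af_nt.Num

theorem runs1 :
    chk tab0 8192 8192 13 1 34361835520 182 2303 0 = true ∧
    chk tab0 16384 8192 13 1 68721573888 222 1596 0 = true ∧
    chk tab0 24576 8192 13 1 103081312256 256 1280 0 = true ∧
    chk tab0 32768 8192 13 1 137441050624 287 1107 0 = true ∧
    chk tab0 40960 8192 13 1 171800788992 314 980 0 = true ∧
    chk tab0 49152 8192 13 1 206160527360 339 891 0 = true ∧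
    chk tab0 57344 8192 13 1 240520265728 363 822 0 = true :=
  ⟨by decide +kernel, by decide +kernel, by decide +kernel, by decide +kernel, by decide +kernel, by decide +kernel, by decide +kernel⟩

end Pool.Agent.MP_5d10af_nt.Num
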