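import Pool.Agent.MP_5d10af_nt.Num.Prog
import Pool.Agent.MP_5d10af_nt.Num.Tab

/-!
Runs of the check.
-/

set_option autoImplicit false

namespace Pool.Agent.MP_5d10af_nt.Num

theorem runs2 :
    chk tab0 65536 8192 13 1 274880004096 384 765 0 = true ∧
    chk tab0 73728 8192 13 1 309239742464 405 719 0 = true ∧
    chk tab0 81920 8192 13 1 343599480832 425 682 0 = true ∧
    chk tab0 90112 8192 13 1 377959219200 444 647 0 = true ∧
    chk tab0 98304 8192 13 1 412318957568 462 619 0 = true ∧
    chk tab0 106496 8192 13 1 446678695936 479 592 0 = true ∧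
    chk tab0 114688 8192 13 1 481038434304 496 569 0 = true :=
  ⟨by decide +kernel, by decide +kernel, by decide +kernel, by decide +kernel, by decide +kernel, by decide +kernel, by decide +kernel⟩

end Pool.Agent.MP_5d10af_nt.Num
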