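import Pool.Agent.MP_5d10af_nt.Num.Run0

/-!
Runs of the check.
-/

set_option autoImplicit false

namespace Pool.Agent.MP_5d10af_nt.Num

theorem runs3 :
    chk tab0 122880 8192 13 1 515398172672 512 549 0 = true ∧
    chk tab0 131072 8192 13 1 549757911040 528 532 0 = true ∧
    chk tab0 139264 8192 13 1 584117649408 544 515 0 = true ∧
    chk tab0 147456 8192 13 1 618477387776 558 499 0 = true ∧
    chk tab0 155648 8192 13 1 652837126144 573 487 0 = true ∧
    chk tab0 163840 8192 13 1 687196864512 587 472 0 = true ∧
    chk tab0 172032 8192 13 1 721556602880 601 461 0 = true :=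
  ⟨by decide +kernel, by decide +kernel, by decide +kernel, by decide +kernel, by decide +kernel, by decide +kernel, by decide +kernel⟩

end Pool.Agent.MP_5d10af_nt.Num
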