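import Pool.Agent.MP_5d10af_nt.Num.Run1

/-!
Runs of the check.
-/

set_option autoImplicit false

namespace Pool.Agent.MP_5d10af_nt.Num

theorem runs4 :
    chk tab0 180224 8192 13 1 755916341248 614 449 0 = true ∧
    chk tab0 188416 8192 13 1 790276079616 628 439 0 = true ∧
    chk tab0 196608 8192 13 1 824635817984 640 428 0 = true ∧
    chk tab0 204800 8192 13 1 858995556352 653 421 0 = true ∧
    chk tab0 212992 8192 13 1 893355294720 666 412 0 = true ∧
    chk tab0 221184 8192 13 1 927715033088 678 404 0 = true ∧
    chk tab0 229376 8192 13 1 962074771456 690 396 0 = true :=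
  ⟨by decide +kernel, by decide +kernel, by decide +kernel, by decide +kernel, by decide +kernel, by decide +kernel, by decide +kernel⟩

end Pool.Agent.MP_5d10af_nt.Num
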