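import Pool.Agent.MP_5d10af_nt.Num.Run2

/-!
Runs of the check.
-/

set_option autoImplicit false

namespace Pool.Agent.MP_5d10af_nt.Num

theorem runs5 :
    chk tab0 237568 8192 13 1 996434509824 702 389 0 = true ∧
    chk tab0 245760 8192 13 1 1030794248192 713 382 0 = true ∧
    chk tab0 253952 8192 13 1 1065153986560 725 376 0 = true ∧
    chk tab0 262144 8192 13 1 1099513724928 736 369 0 = true ∧
    chk tab0 270336 8192 13 1 1133873463296 747 363 0 = true ∧
    chk tab0 278528 8192 13 1 1168233201664 758 357 0 = true ∧
    chk tab0 286720 8192 13 1 1202592940032 768 353 0 = true :=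
  ⟨by decide +kernel, by decide +kernel, by decide +kernel, by decide +kernel, by decide +kernel, by decide +kernel, by decide +kernel⟩

end Pool.Agent.MP_5d10af_nt.Num
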