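import Pool.Agent.MP_5d10af_nt.Num.Run3

/-!
Runs of the check.
-/

set_option autoImplicit false

namespace Pool.Agent.MP_5d10af_nt.Num

theorem runs6 :
    chk tab0 294912 8192 13 1 1236952678400 779 346 0 = true ∧
    chk tab0 303104 8192 13 1 1271312416768 790 343 0 = true ∧
    chk tab0 311296 8192 13 1 1305672155136 800 336 0 = true ∧
    chk tab0 319488 8192 13 1 1340031893504 810 332 0 = true ∧
    chk tab0 327680 8192 13 1 1374391631872 820 327 0 = true ∧
    chk tab0 335872 8192 13 1 1408751370240 830 324 0 = true ∧
    chk tab0 344064 8192 13 1 1443111108608 840 319 0 = true :=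
  ⟨by decide +kernel, by decide +kernel, by decide +kernel, by decide +kernel, by decide +kernel, by decide +kernel, by decide +kernel⟩

end Pool.Agent.MP_5d10af_nt.Num
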